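import Pool.Agent.Lib.Wml.Fin

/-!
# Listing all weakly stable matchings in time linear in their number: one common list

All men have the same preference list (with ties), or all women have; the lists of the other side
are arbitrary weak orders.

Let `W₁ > W₂ > ...` be the tie classes of the common list of the men.  A matching is weakly stable iff
every woman of `Wᵢ` weakly prefers her partner to all men who are matched to later classes.  A set `S`
of men is feasible for `Wᵢ` (after the earlier classes) if it can be matched into `Wᵢ` so that all men
whom the partner of `x` strictly prefers to `x` are in `S` or in earlier classes.  The feasible sets
form a greedoid: the smaller of two of them can be enlarged by an element of the larger one.  A full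
class avoiding a set `Out` exists iff the women of the class can be matched with men outside `Out` who
are not below a man of `Out`.  So the families of classes are listed by a backtracking search in which
every extension test is a bipartite matching problem; for given classes the weakly stable matchings
are the perfect matchings of a bipartite graph, which are listed bit by bit.
-/

namespace Pool.Agent.Results.MP_9fcbaa_lc.CommonListLinear

open Pool.Agent.Lib.Wsm Pool.Agent.Lib.Wml

/-- There are a machine and polynomials `P`, `Q` such that for every instance `I` of the stable
marriage problem with ties in which all men have the same list or all women have the same list,
the machine lists all weakly stable matchings of `I`, each once, within `P n + k * Q n` steps, where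
`n` is the size of `I` and `k` the number of its weakly stable matchings. -/
theorem result :
    ∃ (tm : Turing.FinTM2) (ein : tm.Γ tm.k₀ ≃ Bool) (eout : tm.Γ tm.k₁ ≃ Bool)
      (P Q : Polynomial ℕ), ∀ I : SMT, CommonSide I →
      ∃ L : List (Equiv.Perm (Fin I.n)), L.Nodup ∧ (∀ M, M ∈ L ↔ WeaklyStable I M) ∧
        Nonempty (Turing.TM2OutputsInTime tm ((encI I).map ein.symm)
          (some ((encL L).map eout.symm)) (P.eval I.n + L.length * Q.eval I.n)) :=
  listing2

end Pool.Agent.Results.MP_9fcbaa_lc.CommonListLinear
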