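import Pool.Agent.Lib.Wsm.RFinal2

/-!
# Listing all weakly stable matchings of every instance: a randomised machine

The machine gets the code of an instance followed by random bits.  It repeats a step which, given
a list of weakly stable matchings, tries to find a new one; everything it finds is checked, so that
its output is a list of distinct weakly stable matchings whatever the random bits are.

The step.  The ties of the men are broken by random labels, the ties of every woman by a random
order of the men, where the order of the men `a, b, c, ...` has the signed weight
`g a / (g a - g b) * (g b / (g b - g c)) * ...` (a signed version of the Parke-Taylor measure) with
parameters `g`: under it the events that `j` is before `i`, for `i` fixed, are independent.  So for a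
fixed matching `M` the weight of the tie breakings for which `M` is the woman-optimal stable matching
is the determinant of a matrix of rational numbers.  If the list misses one of the matchings which
are woman-optimal for some tie breaking, then 1 minus the sum of the weights of the matchings of the
list is a rational function of the parameters which is not identically zero, so it is different from
zero at random parameters with high probability (Schwartz and Zippel), and a missing matching is found
by fixing the labels and ties one after the other.  If all woman-optimal matchings are in the list,
the others are reached by eliminating the simple cycles of the extended rotation digraph.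
-/

namespace Pool.Agent.Results.MP_9fcbaa_lc.RandomisedTotalPolynomial

open Pool.Agent.Lib.Wsm

/-- There are a machine and polynomials `Q`, `Q₀` such that for every instance `I` of the stable
marriage problem with ties, `n` its size and `k` the number of its weakly stable matchings, and every
string `r` of random bits the following holds.  The machine, started on the code of `I` followed by
`r`, stops with a list `out r` of distinct weakly stable matchings of `I` within
`Q (n + |out r| + |r|)` steps.  If `r` has at least `Q₀ (n + |out r|)` bits, then more bits do not
change the output (so the random bits may be drawn on demand, without knowing `k`).  If at least
`Q₀ (n + k)` random bits are given, then the list is complete with probability at least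
`1 - 2 ^ (- n)`. -/
theorem result :
    ∃ (tm : Turing.FinTM2) (ein : tm.Γ tm.k₀ ≃ Bool) (eout : tm.Γ tm.k₁ ≃ Bool)
      (Q Q₀ : Polynomial ℕ), ∀ I : SMT, ∃ out : List Bool → List (Equiv.Perm (Fin I.n)),
      (∀ r : List Bool, (out r).Nodup ∧ (∀ M ∈ out r, WeaklyStable I M) ∧
        Nonempty (Turing.TM2OutputsInTime tm ((encI I ++ r).map ein.symm)
          (some ((encL (out r)).map eout.symm)) (Q.eval (I.n + (out r).length + r.length)))) ∧
      (∀ r s : List Bool, Q₀.eval (I.n + (out r).length) ≤ r.length → out (r ++ s) = out r) ∧
      ∀ N : ℕ, Q₀.eval (I.n + numWS I) ≤ N →
        2 ^ I.n * Nat.card {r : Fin N → Bool // ∃ M, WeaklyStable I M ∧ M ∉ out (List.ofFn r)} ≤
          2 ^ N :=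
  rlisting2

end Pool.Agent.Results.MP_9fcbaa_lc.RandomisedTotalPolynomial
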