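import Pool.Agent.Lib.Wsm.Final

/-!
# Listing all weakly stable matchings in total polynomial time: short ties on one side

The machine repeats a step which, given any list of weakly stable matchings, finds a new one or
certifies that there is none.

The certificate.  Break the ties of the men by random labels and the ties of length two of the women
by fair coins; after the ties are broken there is exactly one woman-optimal stable matching.  For a
fixed matching `M` the event that it is the woman-optimal one is the determinant of a random
`0, 1, -1` matrix with independent rows (a row is a pointer of a man to the next woman who wants
him), so its probability is the determinant of the matrix of expectations.  If the probabilities of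
the matchings of the list do not add up to one, some woman-optimal matching is missing, and it is
found by fixing the labels and ties one after the other.  If they add up to one and the list is
closed under the elimination of the simple cycles of the extended rotation digraph (which is
checked by a search along the matchings of the list) then the list is complete.
-/

namespace Pool.Agent.Results.MP_9fcbaa_lc.TotalPolynomialShortTies

open Pool.Agent.Lib.Wsm

/-- There are a machine and a polynomial `Q` such that for every instance `I` of the stable
marriage problem with ties in which, on one of the two sides, all ties have length at most two,
the machine lists all weakly stable matchings of `I` in time `Q (n + k)`, where `k` is their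
number. -/
theorem result :
    ∃ (tm : Turing.FinTM2) (ein : tm.Γ tm.k₀ ≃ Bool) (eout : tm.Γ tm.k₁ ≃ Bool)
      (Q : Polynomial ℕ), ∀ I : SMT, ShortSide I →
      ∃ L : List (Equiv.Perm (Fin I.n)), L.Nodup ∧ (∀ M, M ∈ L ↔ WeaklyStable I M) ∧
        Nonempty (Turing.TM2OutputsInTime tm ((encI I).map ein.symm)
          (some ((encL L).map eout.symm)) (Q.eval (I.n + L.length))) :=
  listing

end Pool.Agent.Results.MP_9fcbaa_lc.TotalPolynomialShortTies
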